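import Mathlib
import Pool.Agent.X143.SD.Stm

set_option autoImplicit false

namespace Pool.Agent.H329.SD

open Finset Filter Topology
open Pool.Agent.X143.SD

lemma hasDerivAt_cc (s : ℝ) : HasDerivAt cc (s * Real.exp (-s)) s := by
  have h1 : HasDerivAt (fun u : ℝ => Real.exp (-u)) (Real.exp (-s) * (-1)) s :=
    (hasDerivAt_neg s).exp
  have h2 : HasDerivAt (fun u : ℝ => 1 + u) 1 s := by
    simpa using (hasDerivAt_id' s).const_add 1
  have h3 := (h2.mul h1).const_sub 1
  refine h3.congr_deriv ?_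
  ring

lemma cc_nonneg (s : ℝ) : 0 ≤ cc s := by
  unfold cc
  have h1 : 1 + s ≤ Real.exp s := by linarith [Real.add_one_le_exp s]
  have h2 : (1 + s) * Real.exp (-s) ≤ Real.exp s * Real.exp (-s) :=
    mul_le_mul_of_nonneg_right h1 (Real.exp_pos _).le
  rw [← Real.exp_add, add_neg_cancel, Real.exp_zero] at h2
  linarith

lemma one_sub_cc (s : ℝ) : 1 - cc s = (1 + s) * Real.exp (-s) := by unfold cc; ring

lemma cc_lt_one {s : ℝ} (hs : 0 ≤ s) : cc s < 1 := by
  have h := one_sub_cc s
  have h2 : 0 < (1 + s) * Real.exp (-s) := mul_pos (by linarith) (Real.exp_pos _)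
  linarith

lemma cc_mono {s t : ℝ} (hs : 0 ≤ s) (hst : s ≤ t) : cc s ≤ cc t := by
  have h : MonotoneOn cc (Set.Ici 0) := by
    apply monotoneOn_of_deriv_nonneg (convex_Ici 0)
    · exact fun x _ => (hasDerivAt_cc x).continuousAt.continuousWithinAt
    · exact fun x _ => (hasDerivAt_cc x).differentiableAt.differentiableWithinAt
    · intro x hx
      rw [interior_Ici] at hx
      rw [(hasDerivAt_cc x).deriv]
      exact mul_nonneg (le_of_lt hx) (Real.exp_pos _).le
  exact h hs (hs.trans hst) hst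

lemma inv_PP {l : ℕ} (hl : 1 ≤ l) {z : ℝ} (h0 : 0 ≤ z) (h1 : z < 1) :
    1 / PP l z = (1 - z) + z ^ l * (1 - z) / (1 - z ^ l) := by
  have hz : 0 < 1 - z ^ l := by
    have := pow_lt_one₀ h0 h1 (by omega : l ≠ 0)
    linarith
  have hg : (1 - z) * PP l z = 1 - z ^ l := by
    unfold PP; exact mul_neg_geom_sum z l
  have hP : PP l z ≠ 0 := by
    intro h; rw [h, mul_zero] at hg; linarith
  have hz' : 1 - z ^ l ≠ 0 := hz.ne'
  rw [div_eq_iff hP]
  have : ((1 - z) + z ^ l * (1 - z) / (1 - z ^ l)) * PP l z =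
      ((1 - z) * PP l z) * (1 / (1 - z ^ l)) := by
    field_simp
    ring
  rw [this, hg]
  field_simp

lemma PP_pos {l : ℕ} (hl : 1 ≤ l) {z : ℝ} (h0 : 0 ≤ z) : 0 < PP l z := by
  unfold PP
  obtain ⟨m, rfl⟩ : ∃ m, l = m + 1 := ⟨l - 1, by omega⟩
  rw [Finset.sum_range_succ']
  have : 0 ≤ ∑ k ∈ range m, z ^ (k + 1) := Finset.sum_nonneg fun _ _ => by positivity
  simp only [pow_zero]
  linarith

/-- the integral inequality -/
lemma main_ineq {l : ℕ} (hl : 1 ≤ l) {k u : ℝ} (hk : 0 < k) (hu : 0 ≤ u) (hT : TT l u = 2) :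
    (2 + u) * Real.exp (-u) ≤ (1 + 1 / k) * (-Real.log (1 - cc u ^ l) / l) +
      cc k ^ l / (1 - cc k ^ l) * Real.exp k := by
  set q : ℝ := cc k ^ l / (1 - cc k ^ l) with hq
  have hl0 : (l : ℝ) ≠ 0 := by positivity
  have hlt : ∀ s : ℝ, 0 ≤ s → 0 < 1 - cc s ^ l := fun s hs => by
    have := pow_lt_one₀ (cc_nonneg s) (cc_lt_one hs) (by omega : l ≠ 0)
    linarith
  have hq0 : 0 ≤ q := div_nonneg (pow_nonneg (cc_nonneg _) _) (hlt k hk.le).le
  set H : ℝ → ℝ := fun s => -((2 + s) * Real.exp (-s)) +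
    (1 + 1 / k) * (-Real.log (1 - cc s ^ l) / l) - q * (Real.exp k * Real.exp (-s)) with hH
  set H' : ℝ → ℝ := fun s => (1 + s) * Real.exp (-s) +
    (1 + 1 / k) * (cc s ^ (l - 1) * (s * Real.exp (-s)) / (1 - cc s ^ l)) +
      q * (Real.exp k * Real.exp (-s)) with hH'
  have hd : ∀ s ∈ Set.uIcc 0 u, HasDerivAt H (H' s) s := by
    intro s hs
    rw [Set.uIcc_of_le hu] at hs
    have h1 : HasDerivAt (fun u : ℝ => Real.exp (-u)) (Real.exp (-s) * (-1)) s :=
      (hasDerivAt_neg s).exp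
    have h2 : HasDerivAt (fun u : ℝ => 2 + u) 1 s := by
      simpa using (hasDerivAt_id' s).const_add 2
    have h3 := (h2.mul h1).neg
    have h4 := (((hasDerivAt_cc s).pow l).const_sub 1).log (hlt s hs.1).ne'
    have h5 := (h4.neg.div_const (l : ℝ)).const_mul (1 + 1 / k)
    have h6 := (h1.const_mul (Real.exp k)).const_mul q
    have h7 := (h3.add h5).sub h6
    refine h7.congr_deriv ?_
    simp only [hH', Pi.pow_apply]
    have hne := (hlt s hs.1).ne'
    field_simp
    ring
  have hcc : Continuous cc := by unfold cc; fun_prop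
  have hcH : ContinuousOn H' (Set.uIcc 0 u) := by
    rw [Set.uIcc_of_le hu]
    apply ContinuousOn.add
    · apply ContinuousOn.add
      · fun_prop
      · apply ContinuousOn.mul continuousOn_const
        apply ContinuousOn.div
        · fun_prop
        · fun_prop
        · intro s hs; exact (hlt s hs.1).ne'
    · fun_prop
  have hint := intervalIntegral.integral_eq_sub_of_hasDerivAt hd hcH.intervalIntegrable
  have hcP : Continuous fun s => 1 / PP l (cc s) := by
    apply Continuous.div continuous_const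
    · unfold PP; fun_prop
    · intro s; exact (PP_pos hl (cc_nonneg s)).ne'
  have hle : ∀ s ∈ Set.Icc 0 u, 1 / PP l (cc s) ≤ H' s := by
    intro s hs
    have hz0 := cc_nonneg s
    have hz1 := cc_lt_one hs.1
    have hp := hlt s hs.1
    rw [inv_PP hl hz0 hz1]
    simp only [hH']
    rw [← one_sub_cc s]
    have g0 : 0 ≤ (1 + 1 / k) * (cc s ^ (l - 1) * (s * Real.exp (-s)) / (1 - cc s ^ l)) := by
      have := hs.1
      have := Real.exp_pos (-s)
      positivity
    have r0 : 0 ≤ q * (Real.exp k * Real.exp (-s)) := by positivity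
    rcases le_or_gt s k with h | h
    · have e1 : cc s ^ l * (1 - cc s) / (1 - cc s ^ l) ≤ q * (Real.exp k * Real.exp (-s)) := by
        have a1 : cc s ^ l ≤ cc k ^ l := pow_le_pow_left₀ hz0 (cc_mono hs.1 h) l
        have a2 : cc s ^ l * (1 - cc s) / (1 - cc s ^ l) ≤ q := by
          rw [hq, div_le_div_iff₀ hp (hlt k hk.le)]
          have b1 : cc s ^ l * (1 - cc s) ≤ cc s ^ l := by nlinarith [pow_nonneg hz0 l]
          nlinarith [pow_nonneg hz0 l, hlt k hk.le]
        have a3 : 1 ≤ Real.exp k * Real.exp (-s) := by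
          rw [← Real.exp_add]; exact Real.one_le_exp (by linarith)
        calc _ ≤ q := a2
          _ = q * 1 := (mul_one q).symm
          _ ≤ _ := mul_le_mul_of_nonneg_left a3 hq0
      linarith
    · have e1 : cc s ^ l * (1 - cc s) / (1 - cc s ^ l) ≤
          (1 + 1 / k) * (cc s ^ (l - 1) * (s * Real.exp (-s)) / (1 - cc s ^ l)) := by
        rw [← mul_div_assoc]
        apply div_le_div_of_nonneg_right _ hp.le
        rw [one_sub_cc]
        have b1 : cc s ^ l ≤ cc s ^ (l - 1) := pow_le_pow_of_le_one hz0 hz1.le (by omega)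
        have b2 : (1 + s) ≤ (1 + 1 / k) * s := by
          have : 1 ≤ 1 / k * s := by
            rw [one_div, inv_mul_eq_div, le_div_iff₀ hk]; linarith
          nlinarith
        have b3 : 0 ≤ cc s ^ (l - 1) := pow_nonneg hz0 _
        have b4 := (Real.exp_pos (-s)).le
        calc cc s ^ l * ((1 + s) * Real.exp (-s))
            ≤ cc s ^ (l - 1) * ((1 + s) * Real.exp (-s)) :=
              mul_le_mul_of_nonneg_right b1 (mul_nonneg (by linarith [hs.1]) b4)
          _ ≤ cc s ^ (l - 1) * (((1 + 1 / k) * s) * Real.exp (-s)) :=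
              mul_le_mul_of_nonneg_left (mul_le_mul_of_nonneg_right b2 b4) b3
          _ = (1 + 1 / k) * (cc s ^ (l - 1) * (s * Real.exp (-s))) := by ring
      linarith
  have hmono := intervalIntegral.integral_mono_on (μ := MeasureTheory.volume) hu
    (hcP.intervalIntegrable 0 u) hcH.intervalIntegrable hle
  rw [hint] at hmono
  have hTT : ∫ s in (0 : ℝ)..u, 1 / PP l (cc s) = 2 := hT
  rw [hTT] at hmono
  have hc0 : cc 0 = 0 := by unfold cc; simp
  have hH0 : H 0 = -2 - q * Real.exp k := by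
    simp only [hH, hc0, zero_pow (by omega : l ≠ 0)]
    simp
  rw [hH0] at hmono
  simp only [hH] at hmono
  have : 0 ≤ q * (Real.exp k * Real.exp (-u)) := by positivity
  linarith

theorem t_AA : S_AA := by
  intro ε0 hε0
  set ε : ℝ := min ε0 (1 / 4) with hε
  have hε1 : 0 < ε := lt_min hε0 (by norm_num)
  have hε2 : ε ≤ 1 / 4 := min_le_right _ _
  have hε3 : ε ≤ ε0 := min_le_left _ _
  set ρ : ℝ := 1 / 2 - ε with hρ
  have hρ0 : 0 < ρ := by linarith
  have hρ1 : ρ < 1 / 2 := by linarith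
  set Λ : ℝ := -Real.log ρ with hΛ
  set M : ℝ := -Real.log (1 - ρ) with hM
  have hΛ0 : 0 < Λ := by
    rw [hΛ]; linarith [Real.log_neg hρ0 (by linarith)]
  have hM0 : 0 < M := by
    rw [hM]; linarith [Real.log_neg (show 0 < 1 - ρ by linarith) (by linarith)]
  have hML : M < Λ := by
    rw [hM, hΛ]
    have := Real.log_lt_log hρ0 (show ρ < 1 - ρ by linarith)
    linarith
  set k : ℝ := 2 * M / (Λ - M) + 1 with hk
  have hk0 : 0 < k := by
    have : 0 < 2 * M / (Λ - M) := div_pos (by linarith) (by linarith)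
    linarith
  have hkM : (1 + 1 / k) * M < Λ := by
    have h1 : 2 * M < k * (Λ - M) := by
      rw [hk, add_mul, div_mul_cancel₀ _ (by linarith : Λ - M ≠ 0)]
      linarith
    have h2 : 1 / k * M < (Λ - M) / 2 := by
      rw [one_div, inv_mul_eq_div, div_lt_iff₀ hk0]; linarith
    nlinarith
  set c : ℝ := cc k with hc
  have hc0 : 0 ≤ c := cc_nonneg k
  have hc1 : c < 1 := cc_lt_one hk0.le
  have hF : Tendsto (fun l : ℕ => Λ * ((l : ℝ) / (l + Λ)) - (1 + 1 / k) * M -
      Real.exp k * ((l : ℝ) * c ^ l / (1 - c ^ l))) atTop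
      (𝓝 (Λ * 1 - (1 + 1 / k) * M - Real.exp k * (0 / (1 - 0)))) := by
    apply Tendsto.sub
    · apply Tendsto.sub
      · exact (tendsto_natCast_div_add_atTop Λ).const_mul Λ
      · exact tendsto_const_nhds
    · apply Tendsto.const_mul
      apply Tendsto.div
      · exact tendsto_self_mul_const_pow_of_lt_one hc0 hc1
      · exact tendsto_const_nhds.sub (tendsto_pow_atTop_nhds_zero_of_lt_one hc0 hc1)
      · norm_num
  have hpos : 0 < Λ * 1 - (1 + 1 / k) * M - Real.exp k * (0 / (1 - 0)) := by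
    simp only [mul_one, zero_div, mul_zero, sub_zero]
    linarith
  obtain ⟨L, hL⟩ := eventually_atTop.1 (hF.eventually (lt_mem_nhds hpos))
  refine ⟨max L 1, fun l hl u hu hT => ?_⟩
  have hl1 : 1 ≤ l := (le_max_right _ _).trans hl
  have hlL := hL l ((le_max_left _ _).trans hl)
  have hlp : (0 : ℝ) < l := by exact_mod_cast hl1
  by_contra hcon
  have hx : cc u ^ l ≤ ρ := by
    have : cc u ^ l ≤ 1 / 2 - ε0 := not_lt.1 hcon
    rw [hρ]; linarith
  have h1 := main_ineq hl1 hk0 hu hT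
  have hx0 := cc_nonneg u
  -- lower bound
  have h2 : cc u ≤ Real.exp (-(Λ / l)) := by
    by_contra h
    have h3 : Real.exp (-(Λ / l)) ^ l < cc u ^ l :=
      pow_lt_pow_left₀ (not_le.1 h) (Real.exp_pos _).le (by omega)
    rw [← Real.exp_nat_mul] at h3
    have h4 : (l : ℝ) * -(Λ / l) = Real.log ρ := by
      rw [hΛ]; field_simp
    rw [h4, Real.exp_log hρ0] at h3
    linarith
  have h3 : Real.exp (-(Λ / l)) ≤ 1 / (1 + Λ / l) := by
    rw [Real.exp_neg, ← one_div]
    apply one_div_le_one_div_of_le (by positivity)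
    linarith [Real.add_one_le_exp (Λ / l)]
  have h4 : Λ / (l + Λ) ≤ 1 - cc u := by
    have h5 : 1 - 1 / (1 + Λ / l) = Λ / (l + Λ) := by
      have : (l : ℝ) + Λ ≠ 0 := by positivity
      have h6 : (1 : ℝ) + Λ / l ≠ 0 := by positivity
      field_simp
      ring
    linarith
  have h5 : 1 - cc u ≤ (2 + u) * Real.exp (-u) := by
    rw [one_sub_cc]
    exact mul_le_mul_of_nonneg_right (by linarith) (Real.exp_pos _).le
  have h6 : -Real.log (1 - cc u ^ l) ≤ M := by
    rw [hM]
    have := Real.log_le_log (show 0 < 1 - ρ by linarith) (show 1 - ρ ≤ 1 - cc u ^ l by linarith)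
    linarith
  have h7 : (1 + 1 / k) * (-Real.log (1 - cc u ^ l) / l) ≤ (1 + 1 / k) * (M / l) := by
    apply mul_le_mul_of_nonneg_left _ (by positivity)
    exact div_le_div_of_nonneg_right h6 hlp.le
  have h8 : Λ / (l + Λ) ≤ (1 + 1 / k) * (M / l) + c ^ l / (1 - c ^ l) * Real.exp k := by
    linarith
  have h9 := mul_le_mul_of_nonneg_left h8 hlp.le
  have e1 : (l : ℝ) * (Λ / (l + Λ)) = Λ * ((l : ℝ) / (l + Λ)) := by ring
  have e2 : (l : ℝ) * ((1 + 1 / k) * (M / l) + c ^ l / (1 - c ^ l) * Real.exp k) =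
      (1 + 1 / k) * M + Real.exp k * ((l : ℝ) * c ^ l / (1 - c ^ l)) := by
    have : (l : ℝ) * (M / l) = M := by field_simp
    calc _ = (1 + 1 / k) * ((l : ℝ) * (M / l)) +
        Real.exp k * ((l : ℝ) * c ^ l / (1 - c ^ l)) := by ring
      _ = _ := by rw [this]
  rw [e1, e2] at h9
  linarith

end Pool.Agent.H329.SD
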